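import Pool.Agent.U204.SP.Shifts

/-!
# MP_491344_nt: the translates of a bounded representation function are uniformly independent

`rep A h n` is the number `r_{A,h}(n)` of ordered `h`-tuples of elements of `A` with sum `n`, and
`count A N` is the number of elements of `A` below `N`.

If `r_{A,h}` is bounded, then at infinitely many scales `N` the translates of `r_{A,h}` by any `s`
different numbers at most `N` are linearly independent in a strong and uniform sense. The proof uses
that exponential sums with few terms and arbitrary frequencies are rarely small, uniformly in the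
frequencies. There is no hypothesis on the density of `A`.
-/

set_option autoImplicit false

namespace Pool.Agent.Results.MP_491344_nt.IndependentShifts

open Finset

/-- `r_{A,h}(n)`: the number of ordered `h`-tuples of elements of `A` with sum `n`. -/
noncomputable def rep (A : Set ℕ) (h n : ℕ) : ℕ :=
  {v : Fin h → ℕ | (∀ i, v i ∈ A) ∧ ∑ i, v i = n}.ncard

/-- The number of elements of `A` below `N`. -/
noncomputable def count (A : Set ℕ) (N : ℕ) : ℕ := (A ∩ {n | n < N}).ncard

theorem rep_eq (A : Set ℕ) (h n : ℕ) : rep A h n = Pool.Agent.U204.RF.r A h n := by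
  unfold rep Pool.Agent.U204.RF.r
  rw [← Set.ncard_image_of_injective _ (List.ofFn_injective (α := ℕ) (n := h)),
    ← Set.ncard_coe_finset]
  congr 1
  ext l
  simp only [Set.mem_image, Set.mem_ofPred_eq, Finset.mem_coe, Pool.Agent.U204.RF.mem_L]
  constructor
  · rintro ⟨v, ⟨h1, h2⟩, rfl⟩
    refine ⟨List.length_ofFn, ?_, by rw [List.sum_ofFn, h2]⟩
    exact List.forall_mem_ofFn_iff.2 h1
  · rintro ⟨h1, h2, h3⟩
    subst h1
    refine ⟨l.get, ⟨fun i => h2 _ (List.get_mem l i), ?_⟩, List.ofFn_get l⟩
    rw [← List.sum_ofFn, List.ofFn_get, h3]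

open Pool.Agent.U204.SP in
/-- Let `h ≥ 2` and let `K` and `s` be natural numbers. There are `δ > 0` and `M` such that for every
nonempty `A ⊆ ℕ` with `r_{A,h} ≤ K` there are arbitrarily large `N` such that for all different
`u_1, …, u_s ≤ N` and all real numbers `c_1, …, c_s` that are not all zero, at least
`δ |A ∩ [0,MN)| ^ h` of the `n < MN` satisfy
`|∑_i c_i r_{A,h}(n - u_i)| ≥ δ max_i |c_i|`, where the terms with `u_i > n` are zero. -/
theorem result (h : ℕ) (hh : 2 ≤ h) (K s : ℕ) :
    ∃ (δ : ℝ) (M : ℕ), 0 < δ ∧ ∀ A : Set ℕ, A.Nonempty → (∀ n, rep A h n ≤ K) →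
      ∀ N₀ : ℕ, ∃ N : ℕ, N₀ ≤ N ∧ ∀ u : Fin s → ℕ, Function.Injective u → (∀ i, u i ≤ N) →
        ∀ c : Fin s → ℝ, c ≠ 0 →
          δ * (count A (M * N) : ℝ) ^ h ≤
            ({n | n < M * N ∧ ∀ i, δ * |c i| ≤
              |∑ k, if u k ≤ n then c k * (rep A h (n - u k) : ℝ) else 0|}.ncard : ℝ) := by
  classical
  obtain ⟨j, rfl⟩ : ∃ j, h = j + 2 := ⟨h - 2, by omega⟩
  obtain ⟨δ, M, hδ, -, H⟩ := count_shifts j s (K := (K : ℝ) + 1)
    (by linarith [(Nat.cast_nonneg K : (0 : ℝ) ≤ K)])
  refine ⟨δ, M, hδ, fun A hA hK N₀ => ?_⟩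
  obtain ⟨N, hN, H2⟩ := H A hA (fun n => by
    have h1 : (rep A (j + 2) n : ℝ) ≤ K := by exact_mod_cast hK n
    rw [rep_eq] at h1
    show (Pool.Agent.U204.RF.r A (j + 2) n : ℝ) ≤ _
    linarith) N₀
  refine ⟨N, hN, fun u hu huN c hc => ?_⟩
  -- the largest coefficient
  obtain ⟨i₁, hi₁⟩ := Function.ne_iff.1 hc
  obtain ⟨i₀, -, hmax⟩ := Finset.exists_max_image univ (fun i => |c i|) ⟨i₁, mem_univ i₁⟩
  set m : ℝ := |c i₀| with hm
  have hm0 : 0 < m := lt_of_lt_of_le (abs_pos.2 hi₁) (hmax i₁ (mem_univ _))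
  set b : ℕ → ℝ := fun x => ∑ i : Fin s, if u i = x then c i / m else 0 with hb
  have hbu : ∀ i, b (u i) = c i / m := by
    intro i
    simp only [hb]
    rw [Finset.sum_eq_single i]
    · rw [if_pos rfl]
    · intro k _ hk
      rw [if_neg fun h => hk (hu h)]
    · intro h; exact absurd (mem_univ i) h
  set I : Finset ℕ := univ.image u with hI
  have hIc : I.card ≤ s := (card_image_le).trans (by simp)
  have hIN : ∀ x ∈ I, x ≤ N := by
    intro x hx
    obtain ⟨i, -, rfl⟩ := mem_image.1 hx
    exact huN i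
  have hb1 : ∀ x ∈ I, |b x| ≤ 1 := by
    intro x hx
    obtain ⟨i, -, rfl⟩ := mem_image.1 hx
    rw [hbu, abs_div, abs_of_pos hm0, div_le_one hm0]
    exact hmax i (mem_univ _)
  have key := H2 I hIc hIN b hb1 ⟨u i₀, mem_image_of_mem _ (mem_univ _), by
    rw [hbu, abs_div, abs_of_pos hm0, ← hm, div_self hm0.ne']⟩
  unfold count
  refine key.trans ?_
  rw [← Set.ncard_coe_finset]
  have hsub : (((range (M * N)).filter fun n =>
      δ ≤ |Pool.Agent.U204.RF.conv (res I b) (rr A (j + 2)) n|) : Set ℕ) ⊆
      {n | n < M * N ∧ ∀ i, δ * |c i| ≤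
        |∑ k, if u k ≤ n then c k * (rep A (j + 2) (n - u k) : ℝ) else 0|} := by
    intro n hn
    rw [Finset.mem_coe, mem_filter, mem_range] at hn
    refine ⟨hn.1, fun i => ?_⟩
    have h1 : Pool.Agent.U204.RF.conv (res I b) (rr A (j + 2)) n =
        (∑ k, if u k ≤ n then c k * (rep A (j + 2) (n - u k) : ℝ) else 0) / m := by
      unfold Pool.Agent.U204.RF.conv
      rw [Nat.sum_antidiagonal_eq_sum_range_succ (fun i k => res I b i * rr A (j + 2) k) n,
        sum_div]
      have h2 : ∀ x ∈ range (n + 1), res I b x * rr A (j + 2) (n - x) =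
          ∑ k : Fin s, if u k = x then c k / m * rr A (j + 2) (n - x) else 0 := by
        intro x _
        have h3 : res I b x = b x := by
          unfold res
          split_ifs with hx
          · rfl
          · simp only [hb]
            rw [Finset.sum_eq_zero]
            intro k _
            rw [if_neg]
            intro h; exact hx (h ▸ mem_image_of_mem _ (mem_univ _))
        rw [h3]
        simp only [hb, sum_mul, ite_mul, zero_mul]
      rw [sum_congr rfl h2, sum_comm]
      refine sum_congr rfl fun k _ => ?_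
      rw [sum_ite_eq]
      by_cases hle : u k ≤ n
      · rw [if_pos (mem_range.2 (by omega)), if_pos hle, rep_eq]
        unfold rr
        ring
      · rw [if_neg (fun hm => hle (by have := mem_range.1 hm; omega)), if_neg hle, zero_div]
    have h4 := hn.2
    rw [h1, abs_div, abs_of_pos hm0, le_div_iff₀ hm0] at h4
    exact (mul_le_mul_of_nonneg_left (hmax i (mem_univ _)) hδ.le).trans h4
  exact_mod_cast Set.ncard_le_ncard hsub ((Set.finite_lt_nat (M * N)).subset fun n hn => hn.1)

end Pool.Agent.Results.MP_491344_nt.IndependentShifts
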