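import Pool.Agent.U204.SP.Scales

/-!
# MP_491344_nt: bounded representation functions cannot be predicted linearly

`rep A h n` is the number `r_{A,h}(n)` of ordered `h`-tuples of elements of `A` with sum `n`, and
`count A N` is the number of elements of `A` below `N`.

If `r_{A,h}` is bounded, then at infinitely many scales `N` no linear predictor, however long its
memory is, can compute `r_{A,h}(n)` from the previous values for all but a small proportion of the
`|A ∩ [0,N)| ^ h` possible sums: the energy of the prediction error is bounded below by Jensen's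
inequality for the generating function of the predictor and an inequality for the moments of the
generating function of `A`. There is no hypothesis on the density of `A`.
-/

set_option autoImplicit false

namespace Pool.Agent.Results.MP_491344_nt.LinearPrediction

open Finset

/-- `r_{A,h}(n)`: the number of ordered `h`-tuples of elements of `A` with sum `n`. -/
noncomputable def rep (A : Set ℕ) (h n : ℕ) : ℕ :=
  {v : Fin h → ℕ | (∀ i, v i ∈ A) ∧ ∑ i, v i = n}.ncard

/-- The number of elements of `A` below `N`. -/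
noncomputable def count (A : Set ℕ) (N : ℕ) : ℕ := (A ∩ {n | n < N}).ncard

theorem rep_eq (A : Set ℕ) (h n : ℕ) : rep A h n = Pool.Agent.U204.RF.r A h n := by
  unfold rep Pool.Agent.U204.RF.r
  rw [← Set.ncard_image_of_injective _ (List.ofFn_injective (α := ℕ) (n := h)),
    ← Set.ncard_coe_finset]
  congr 1
  ext l
  simp only [Set.mem_image, Set.mem_ofPred_eq, Finset.mem_coe, Pool.Agent.U204.RF.mem_L]
  constructor
  · rintro ⟨v, ⟨h1, h2⟩, rfl⟩
    refine ⟨List.length_ofFn, ?_, by rw [List.sum_ofFn, h2]⟩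
    exact List.forall_mem_ofFn_iff.2 h1
  · rintro ⟨h1, h2, h3⟩
    subst h1
    refine ⟨l.get, ⟨fun i => h2 _ (List.get_mem l i), ?_⟩, List.ofFn_get l⟩
    rw [← List.sum_ofFn, List.ofFn_get, h3]

theorem sum_Icc_one (f : ℕ → ℝ) (n : ℕ) : ∑ u ∈ Icc 1 n, f u = ∑ i ∈ range n, f (i + 1) := by
  induction n with
  | zero => simp
  | succ n ih => rw [Finset.sum_Icc_succ_top (by omega), ih, sum_range_succ]

open Pool.Agent.U204.SP in
theorem first (h : ℕ) (hh : 2 ≤ h) (K : ℕ) (S : ℝ) : ∃ δ : ℝ, 0 < δ ∧ ∀ A : Set ℕ, A.Nonempty →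
    (∀ n, rep A h n ≤ K) → ∀ N₀ : ℕ, ∃ N : ℕ, N₀ ≤ N ∧
      ∀ c : ℕ → ℝ, (∀ M : ℕ, ∑ u ∈ Icc 1 M, |c u| ≤ S) →
        δ * (count A N : ℝ) ^ h ≤
          ({n | n < N ∧ δ ≤ |(rep A h n : ℝ) - ∑ u ∈ Icc 1 n, c u * (rep A h (n - u) : ℝ)|}.ncard
            : ℝ) := by
  classical
  obtain ⟨j, rfl⟩ : ∃ j, h = j + 2 := ⟨h - 2, by omega⟩
  obtain ⟨δ, hδ, H⟩ := count_main j (K := (K : ℝ) + 1) (S := 1 + max S 0)
    (by linarith [(Nat.cast_nonneg K : (0 : ℝ) ≤ K)]) (by linarith [le_max_right S 0])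
  refine ⟨δ, hδ, fun A hA hK N₀ => ?_⟩
  obtain ⟨N, hN, H2⟩ := H A hA (fun n => by
    have h1 : (rep A (j + 2) n : ℝ) ≤ K := by exact_mod_cast hK n
    rw [rep_eq] at h1
    show (Pool.Agent.U204.RF.r A (j + 2) n : ℝ) ≤ _
    linarith) N₀
  refine ⟨N, hN, fun c hc => ?_⟩
  set b : ℕ → ℝ := fun n => if n = 0 then 1 else if n ≤ N then -c n else 0 with hb
  have hb0 : b 0 = 1 := by simp [hb]
  have hbp : Pred b (1 + max S 0) := by
    refine ⟨⟨N + 1, fun n hn => ?_⟩, by rw [hb0]; simp, fun m => ?_, by linarith [le_max_right S 0]⟩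
    · simp only [hb]
      rw [if_neg (by omega), if_neg (by omega)]
    · cases m with
      | zero => simp; linarith [le_max_right S 0]
      | succ m =>
        rw [sum_range_succ', hb0, abs_one, add_comm]
        have h1 : ∑ i ∈ range m, |b (i + 1)| ≤ ∑ i ∈ range m, |c (i + 1)| := by
          refine sum_le_sum fun i _ => ?_
          simp only [hb]
          rw [if_neg (by omega)]
          split_ifs
          · rw [abs_neg]
          · rw [abs_zero]; exact abs_nonneg _
        have h2 := hc m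
        rw [sum_Icc_one (fun u => |c u|) m] at h2
        have h3 := le_max_left S 0
        linarith
  have key := H2 b hbp
  unfold count
  refine key.trans ?_
  rw [← Set.ncard_coe_finset]
  have hsub : (((range N).filter fun n =>
      δ ≤ |Pool.Agent.U204.RF.conv b (rr A (j + 2)) n|) : Set ℕ) ⊆
      {n | n < N ∧ δ ≤ |(rep A (j + 2) n : ℝ) -
        ∑ u ∈ Icc 1 n, c u * (rep A (j + 2) (n - u) : ℝ)|} := by
    intro n hn
    rw [Finset.mem_coe, mem_filter, mem_range] at hn
    refine ⟨hn.1, ?_⟩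
    have h1 : Pool.Agent.U204.RF.conv b (rr A (j + 2)) n = (rep A (j + 2) n : ℝ) -
        ∑ u ∈ Icc 1 n, c u * (rep A (j + 2) (n - u) : ℝ) := by
      unfold Pool.Agent.U204.RF.conv
      rw [Nat.sum_antidiagonal_eq_sum_range_succ (fun i k => b i * rr A (j + 2) k) n,
        sum_range_succ', sum_Icc_one (fun u => c u * (rep A (j + 2) (n - u) : ℝ)) n, hb0, one_mul,
        Nat.sub_zero, rep_eq]
      have h2 : ∑ k ∈ range n, b (k + 1) * rr A (j + 2) (n - (k + 1)) =
          -∑ i ∈ range n, c (i + 1) * (rep A (j + 2) (n - (i + 1)) : ℝ) := by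
        rw [← sum_neg_distrib]
        refine sum_congr rfl fun i hi => ?_
        have := mem_range.1 hi
        simp only [hb]
        rw [if_neg (by omega), if_pos (by omega), rep_eq]
        unfold rr
        ring
      rw [h2]
      unfold rr
      ring
    rw [← h1]; exact hn.2
  exact_mod_cast Set.ncard_le_ncard hsub ((Set.finite_lt_nat N).subset fun n hn => hn.1)

/-- Let `h ≥ 2` and let `K` be a natural number. (1) For every real `S` there is `δ > 0` such that
for every nonempty `A ⊆ ℕ` with `r_{A,h} ≤ K` there are arbitrarily large `N` such that for all real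
numbers `c_1, c_2, …` with `∑ |c_u| ≤ S` at least `δ |A ∩ [0,N)| ^ h` of the `n < N` satisfy
`|r_{A,h}(n) - ∑_{1 ≤ u ≤ n} c_u r_{A,h}(n - u)| ≥ δ`. (2) For every `s` there is `δ > 0` such that for
every nonempty `A ⊆ ℕ` with `r_{A,h} ≤ K` there are arbitrarily large `N` such that for all real
numbers `c_1, …, c_s` and all `u_1, …, u_s ≥ 1` at least `δ |A ∩ [0,N)| ^ h` of the `n < N` satisfy
`r_{A,h}(n) ≠ ∑_i c_i r_{A,h}(n - u_i)`, where the terms with `u_i > n` are zero. -/
theorem result (h : ℕ) (hh : 2 ≤ h) (K : ℕ) :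
    (∀ S : ℝ, ∃ δ : ℝ, 0 < δ ∧ ∀ A : Set ℕ, A.Nonempty → (∀ n, rep A h n ≤ K) →
      ∀ N₀ : ℕ, ∃ N : ℕ, N₀ ≤ N ∧ ∀ c : ℕ → ℝ, (∀ M : ℕ, ∑ u ∈ Icc 1 M, |c u| ≤ S) →
        δ * (count A N : ℝ) ^ h ≤
          ({n | n < N ∧ δ ≤ |(rep A h n : ℝ) - ∑ u ∈ Icc 1 n, c u * (rep A h (n - u) : ℝ)|}.ncard
            : ℝ)) ∧
    (∀ s : ℕ, ∃ δ : ℝ, 0 < δ ∧ ∀ A : Set ℕ, A.Nonempty → (∀ n, rep A h n ≤ K) →
      ∀ N₀ : ℕ, ∃ N : ℕ, N₀ ≤ N ∧ ∀ (c : Fin s → ℝ) (u : Fin s → ℕ), (∀ i, 1 ≤ u i) →
        δ * (count A N : ℝ) ^ h ≤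
          ({n | n < N ∧ (rep A h n : ℝ) ≠
            ∑ i, if u i ≤ n then c i * (rep A h (n - u i) : ℝ) else 0}.ncard : ℝ)) := by
  classical
  refine ⟨first h hh K, fun s => ?_⟩
  -- good coefficients for a set of vectors of values
  set G : Finset (Fin (s + 1) → Fin (K + 1)) → (Fin s → ℝ) → Prop := fun F c =>
    ∀ v ∈ F, ((v 0 : ℕ) : ℝ) = ∑ i : Fin s, c i * ((v i.succ : ℕ) : ℝ) with hG
  set cF : Finset (Fin (s + 1) → Fin (K + 1)) → (Fin s → ℝ) := fun F =>
    if hF : ∃ c, G F c then hF.choose else 0 with hcF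
  set S : ℝ := ∑ F : Finset (Fin (s + 1) → Fin (K + 1)), ∑ i : Fin s, |cF F i| with hS
  obtain ⟨δ, hδ, H⟩ := first h hh K S
  refine ⟨δ, hδ, fun A hA hK N₀ => ?_⟩
  obtain ⟨N, hN, H2⟩ := H A hA hK N₀
  refine ⟨N, hN, fun c u hu => ?_⟩
  -- the vector of values
  have hlt : ∀ n, rep A h n < K + 1 := fun n => Nat.lt_succ_of_le (hK n)
  set vec : ℕ → Fin (s + 1) → Fin (K + 1) := fun n =>
    Fin.cons ⟨rep A h n, hlt n⟩ fun i => if u i ≤ n then ⟨rep A h (n - u i), hlt _⟩ else 0 with hvec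
  have hv0 : ∀ n, ((vec n 0 : ℕ) : ℝ) = (rep A h n : ℝ) := fun n => by
    simp only [hvec, Fin.cons_zero]
  have hvs : ∀ n (i : Fin s), ((vec n i.succ : ℕ) : ℝ) =
      if u i ≤ n then (rep A h (n - u i) : ℝ) else 0 := fun n i => by
    simp only [hvec, Fin.cons_succ]
    split_ifs <;> simp
  set ok : Finset ℕ := (range N).filter fun n => (rep A h n : ℝ) =
    ∑ i, if u i ≤ n then c i * (rep A h (n - u i) : ℝ) else 0 with hok
  set F : Finset (Fin (s + 1) → Fin (K + 1)) := ok.image vec with hF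
  have hGc : G F c := by
    intro v hv
    rw [hF, mem_image] at hv
    obtain ⟨n, hn, rfl⟩ := hv
    rw [hok, mem_filter] at hn
    rw [hv0, hn.2]
    refine sum_congr rfl fun i _ => ?_
    rw [hvs]
    split_ifs <;> simp
  have hGF : G F (cF F) := by
    have hex : ∃ c, G F c := ⟨c, hGc⟩
    simp only [hcF]
    rw [dif_pos hex]
    exact hex.choose_spec
  set d : ℕ → ℝ := fun m => ∑ i : Fin s, if u i = m then cF F i else 0 with hd
  have hdS : ∀ M : ℕ, ∑ m ∈ Icc 1 M, |d m| ≤ S := by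
    intro M
    calc ∑ m ∈ Icc 1 M, |d m| ≤ ∑ m ∈ Icc 1 M, ∑ i : Fin s, if u i = m then |cF F i| else 0 := by
          refine sum_le_sum fun m _ => (abs_sum_le_sum_abs _ _).trans (sum_le_sum fun i _ => ?_)
          split_ifs <;> simp
      _ = ∑ i : Fin s, ∑ m ∈ Icc 1 M, if u i = m then |cF F i| else 0 := sum_comm
      _ ≤ ∑ i : Fin s, |cF F i| := by
          refine sum_le_sum fun i _ => ?_
          rw [sum_ite_eq]
          split_ifs
          · exact le_rfl
          · exact abs_nonneg _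
      _ ≤ S := by
          rw [hS]
          exact single_le_sum (f := fun F => ∑ i : Fin s, |cF F i|)
            (fun F _ => sum_nonneg fun i _ => abs_nonneg _) (mem_univ F)
  refine (H2 d hdS).trans ?_
  have hsub : {n | n < N ∧ δ ≤ |(rep A h n : ℝ) - ∑ m ∈ Icc 1 n, d m * (rep A h (n - m) : ℝ)|} ⊆
      {n | n < N ∧ (rep A h n : ℝ) ≠
        ∑ i, if u i ≤ n then c i * (rep A h (n - u i) : ℝ) else 0} := by
    rintro n ⟨h1, h2⟩
    refine ⟨h1, fun h3 => ?_⟩
    have h4 : n ∈ ok := by rw [hok, mem_filter, mem_range]; exact ⟨h1, h3⟩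
    have h5 := hGF (vec n) (by rw [hF]; exact mem_image_of_mem _ h4)
    rw [hv0] at h5
    have h6 : ∑ m ∈ Icc 1 n, d m * (rep A h (n - m) : ℝ) =
        ∑ i : Fin s, cF F i * ((vec n i.succ : ℕ) : ℝ) := by
      simp only [hd, sum_mul]
      rw [sum_comm]
      refine sum_congr rfl fun i _ => ?_
      rw [hvs]
      simp only [ite_mul, zero_mul]
      rw [sum_ite_eq]
      by_cases hle : u i ≤ n
      · rw [if_pos (mem_Icc.2 ⟨hu i, hle⟩), if_pos hle]
      · rw [if_neg (fun hm => hle (mem_Icc.1 hm).2), if_neg hle, mul_zero]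
    rw [h6, ← h5, sub_self, abs_zero] at h2
    linarith
  exact_mod_cast Set.ncard_le_ncard hsub ((Set.finite_lt_nat N).subset fun n hn => hn.1)

end Pool.Agent.Results.MP_491344_nt.LinearPrediction
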