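import Pool.Agent.U204.PT.Order

/-!
# MP_491344_nt: how many representations does a density threshold force after a random perturbation?

Every element `a` of a set `A` is moved to `a + Z_a`, where the `Z_a ≥ 0` are independent random integers;
`A'` is the perturbed set. `rep A h n` is the number of ordered representations of `n` as a sum of `h` elements
of `A` (`h = 2` in the problem, here `h ≥ 2` is arbitrary). Let `g ≥ 1` be nondecreasing with
`(log n) ^ κ ≤ g(n) ≤ n ^ o(1)` and `g(n ^ 2) ≤ g(n) ^ B` for large `n` (powers of `log n`,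
`exp ((log n) ^ θ)`, ...).  The exact order of the number of representations forced by the density
`N ^ (1 / h) / g(N) ^ O(1)` after perturbations of size `g(a) ^ O(1)` is `log n / log g(n)`:

1. For every `K` there is `C₁` such that for every `C₂` there is `c > 0` with the following property.  If
   `|A ∩ [1, N]| ≥ N ^ (1 / h) / g(N) ^ K` for infinitely many `N` and if, for all large `a ∈ A`, `Z_a` takes every
   value `z ≤ g(a) ^ C₁` with probability at least `g(a) ^ (-C₂)` (for instance, uniform distribution on the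
   integers in `[0, g(a) ^ C₁]`, `C₂ > C₁`), then almost surely `r_{A',h}(n) ≥ c log n / log g(n)` for infinitely
   many `n`.
2. For every `D` there are `K`, `C` and a set `A` with `|A ∩ [1, N]| ≥ N ^ (1 / h) / g(N) ^ K` for all large `N`
   such that for ALL shifts `z_a ≤ g(a) ^ D` the perturbed set has `r_{A',h}(n) ≤ C log n / log g(n)` for all
   `n ≥ n₀`, where `n₀` does not depend on the shifts.

For example, for densities `N ^ (1 / h) / (log N) ^ O(1)` the exact order is `log n / log log n`.

Method (`Pool/Agent/U204/PT`).  1: a window of polylogarithmic length, up to powers of `g`, contains many sums of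
`h` distinct elements of `A`; a counting argument finds `2 k` pairwise disjoint `j`-subsets of `A`, `2 ≤ j ≤ h`,
with almost the same sum (`k = c log n / log g(n)`), and prescribed shifts of `O(k)` elements, of probability
`g ^ (- O(k)) ≥ n ^ (- small)`, produce `k` representations; there are `n ^ (1 / h - o(1))` disjoint such patterns.
2: the elements are chosen one by one such that two potentials, sums over all `n` of the given size of
`λ ^ (number of elements participating in an approximate representation of n)`, remain small, one for the order `h`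
with `λ = g ^ δ` and one for the lower orders with `λ = n ^ δ`.
-/

set_option autoImplicit false

open Filter MeasureTheory ProbabilityTheory

namespace Pool.Agent.Results.MP_491344_nt.PerturbedThresholds

/-- `rep A h n`: the number of ordered representations of `n` as a sum of `h` elements of `A` -/
noncomputable def rep (A : Set ℕ) (h n : ℕ) : ℕ :=
  {p : Fin h → ℕ | (∀ i, p i ∈ A) ∧ ∑ i, p i = n}.ncard

/-- `|A ∩ [1, N]|` -/
noncomputable def count (A : Set ℕ) (N : ℕ) : ℕ := (A ∩ Set.Icc 1 N).ncard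

/-- the perturbed set: every element `a` of `A` is replaced by `a + z a` -/
def moved (A : Set ℕ) (z : ℕ → ℕ) : Set ℕ := {x | ∃ a ∈ A, x = a + z a}

theorem result (h : ℕ) (hh : 2 ≤ h) (g : ℕ → ℝ) (hg : ∀ n, 1 ≤ g n) (hmono : Monotone g)
    (hlog : ∃ κ : ℝ, 0 < κ ∧ ∀ᶠ n : ℕ in atTop, Real.log n ^ κ ≤ g n)
    (hsq : ∃ B : ℝ, ∀ᶠ n : ℕ in atTop, g (n ^ 2) ≤ g n ^ B)
    (hsub : ∀ ε : ℝ, 0 < ε → ∀ᶠ n : ℕ in atTop, g n ≤ (n : ℝ) ^ ε) :
    -- 1. the number of representations forced after a random perturbation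
    (∀ K : ℝ, ∃ C₁ : ℝ, ∀ C₂ : ℝ, ∃ c : ℝ, 0 < c ∧
      ∀ A : Set ℕ, (∃ᶠ N : ℕ in atTop, (N : ℝ) ^ (1 / (h : ℝ)) / g N ^ K ≤ count A N) →
      ∀ (Ω : Type) (_ : MeasurableSpace Ω) (μ : Measure Ω), IsProbabilityMeasure μ →
      ∀ Z : ℕ → Ω → ℕ, (∀ a, Measurable (Z a)) → iIndepFun Z μ →
        (∀ᶠ a : ℕ in atTop, a ∈ A → ∀ z : ℕ, (z : ℝ) ≤ g a ^ C₁ →
          g a ^ (-C₂) ≤ μ.real {ω | Z a ω = z}) →
        ∀ᵐ ω ∂μ, ∀ n₀ : ℕ, ∃ n ≥ n₀,
          c * (Real.log n / Real.log (g n)) ≤ rep (moved A fun a => Z a ω) h n) ∧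
    -- 2. this order of magnitude is best possible
    (∀ D : ℝ, ∃ (K C : ℝ) (A : Set ℕ) (n₀ : ℕ),
      (∀ᶠ N : ℕ in atTop, (N : ℝ) ^ (1 / (h : ℝ)) / g N ^ K ≤ count A N) ∧
      ∀ z : ℕ → ℕ, (∀ a ∈ A, (z a : ℝ) ≤ g a ^ D) → ∀ n ≥ n₀,
        (rep (moved A z) h n : ℝ) ≤ C * (Real.log n / Real.log (g n))) := by
  have hrep : ∀ A n, rep A h n = Pool.Agent.U204.RF.r A h n := fun A n =>
    Pool.Agent.U204.PT.r_eq_ncard A h n
  have hcount : ∀ A N, count A N = Pool.Agent.U204.PT.num A N := by
    classical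
    intro A N
    unfold count Pool.Agent.U204.PT.num
    rw [← Set.ncard_coe_finset]
    congr 1
    ext a
    simp only [Set.mem_inter_iff, Set.mem_Icc, Finset.coe_filter, Finset.mem_Icc,
      Set.mem_ofPred_eq]
    exact and_comm
  have hg0 : ∀ n, 0 < g n := fun n => by linarith [hg n]
  have hpow : ∀ (n : ℕ) (x : ℝ), g n ^ x = Real.exp (x * Real.log (g n)) := by
    intro n x
    rw [Real.rpow_def_of_pos (hg0 n), mul_comm]
  have hdiv : ∀ (n : ℕ) (y x : ℝ), y / g n ^ x = y * Real.exp (-(x * Real.log (g n))) := by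
    intro n y x
    rw [hpow, Real.exp_neg, div_eq_mul_inv]
  have hL : Pool.Agent.U204.PT.Reg fun n => Real.log (g n) := by
    refine ⟨fun a b hab => Real.log_le_log (hg0 a) (hmono hab), ?_, ?_, ?_⟩
    · obtain ⟨B, hB⟩ := hsq
      refine ⟨B, ?_⟩
      filter_upwards [hB] with n hn
      rw [← Real.log_rpow (hg0 n)]
      exact Real.log_le_log (hg0 _) hn
    · obtain ⟨κ, hκ, h1⟩ := hlog
      refine ⟨κ, hκ, ?_⟩
      have hlogt : Tendsto (fun N : ℕ => Real.log N) atTop atTop :=
        Real.tendsto_log_atTop.comp tendsto_natCast_atTop_atTop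
      filter_upwards [h1, hlogt.eventually_gt_atTop 0] with n hn hn0
      rw [← Real.log_rpow hn0]
      exact Real.log_le_log (Real.rpow_pos_of_pos hn0 _) hn
    · intro ε hε
      filter_upwards [hsub ε hε, eventually_ge_atTop 1] with n hn hn1
      have hn0 : (0 : ℝ) < n := by exact_mod_cast hn1
      rw [← Real.log_rpow hn0]
      exact Real.log_le_log (hg0 _) hn
  refine ⟨?_, ?_⟩
  · intro K
    obtain ⟨C₁, hC₁⟩ := Pool.Agent.U204.PT.order_lower h hh _ hL K
    refine ⟨C₁, fun C₂ => ?_⟩
    obtain ⟨c, hc, hres⟩ := hC₁ C₂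
    refine ⟨c, hc, ?_⟩
    intro A hA Ω _ μ hμ Z hZ hind hlaw
    have h1 := hres A (hA.mono fun N hN => by
        rw [hdiv, hcount] at hN
        exact hN) μ Z hZ hind (hlaw.mono fun a ha haA z hz => by
        have h2 := ha haA z (by rw [hpow]; exact hz)
        rw [hpow, neg_mul] at h2
        exact h2)
    filter_upwards [h1] with ω hω n₀
    obtain ⟨n, hn, hn'⟩ := hω n₀
    refine ⟨n, hn, hn'.trans ?_⟩
    rw [hrep]
    exact_mod_cast Pool.Agent.U204.RF.R_le_r _ _ _
  · intro D
    obtain ⟨K, C, A, n₀, hA, hmain⟩ := Pool.Agent.U204.PT.order_upper h hh _ hL D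
    refine ⟨K, h.factorial * C, A, n₀, ?_, ?_⟩
    · filter_upwards [hA] with N hN
      rw [hdiv, hcount]
      exact hN
    · intro z hz n hn
      have h1 := hmain z (fun a ha => by
        have := hz a ha
        rw [hpow] at this
        exact this) n hn
      rw [hrep]
      have h2 : (Pool.Agent.U204.RF.r (moved A z) h n : ℝ) ≤
          h.factorial * Pool.Agent.U204.RF.R (moved A z) h n := by
        exact_mod_cast Pool.Agent.U204.RF.r_le (moved A z) h n
      refine h2.trans ?_
      rw [mul_assoc]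
      exact mul_le_mul_of_nonneg_left h1 (by positivity)

end Pool.Agent.Results.MP_491344_nt.PerturbedThresholds
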