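import Pool.Agent.U33.AS.Thr

/-!
# MP_491344_nt: the threshold for sets which are sampled by bounded depth circuits

The question is which densities `N ^ (1 / 2) / g(N)` force an unbounded representation function. Here the
threshold is determined, up to `ε` in one exponent, for the sets from which small circuits of bounded
depth can sample: it is `|A ∩ [0, N)| = exp ((log N) ^ (1 / 2 + o(1)))`, for the sums of `h` elements, for
every `h ≥ 2`.

`rep A h x` is the number of (unordered) representations of `x` as a sum of `h` elements of `A`.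
`Computed m s d S F`: `F : {0, 1}^m → ℕ` is `F y = ∑_{j < s} c_j g_j(y)` with integers `c_j` and bits `g_j`
computed by one circuit of depth at most `d` with at most `S` gates (NOT gates, AND and OR gates of
arbitrary fan-in; for instance the `g_j` are the binary digits of `F y`). `entropy F` is the Shannon
entropy, in bits, of `F` at a random input.

1. If `F` has all its values in `A`, with at most `n` terms, depth `d` and size at most `2 ^ (n ^ c)`, and
   its entropy is at least `n ^ (1 / 2 + ε)`, then `rep A h x ≥ 2 ^ (n ^ ε)` for some `x`; if the values are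
   less than `N`, then `x < h N`.
2. So densities above `2 ^ (n ^ (1 / 2 + ε))` at `2 ^ n` force `rep A h x ≥ 2 ^ (n ^ (ε / 2))` for some
   `x < h 2 ^ n`, if one can sample from `A ∩ [0, 2 ^ n)` so that every element has probability at most
   `|A ∩ [0, 2 ^ n)| ^ (- γ)`.
3. It is enough that the circuits are right on a small part of the inputs: if `rep A h ≤ K`, and `F` is
   injective on `{0, 1}^k`, `k ≥ n ^ (1 / 2 + ε)`, then `F y ∈ A` for at most `2 ^ (k - n ^ c)` of the `y`.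
4. The threshold is sharp, even for depth one and at most `n` gates: there is a set `A` with
   `rep A h ≤ 2 ^ (h 2 ^ h)` and `|A ∩ [0, N)| ≥ 2 ^ (c √(log N))` for all large `N`, such that for all
   large `n` some injective `F` on `{0, 1}^k`, `k ≥ c √n`, with at most `n` terms and at most `n` gates, all
   of depth one, has its values in `A ∩ [0, 2 ^ n)`.
-/

set_option autoImplicit false

namespace Pool.Agent.Results.MP_491344_nt.SampledThresholds

open Filter
open Pool.Agent.U33.AS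
open Pool.Agent.U33.TS (rep)

theorem result (h : ℕ) (hh : 2 ≤ h) :
    -- 1. samplers of large entropy force many representations
    (∀ (d : ℕ) (ε : ℝ), 0 < ε → ∃ c : ℝ, 0 < c ∧ ∀ᶠ n : ℕ in atTop,
      ∀ (A : Set ℕ) (m s S : ℕ) (F : (Fin m → Bool) → ℕ),
        Computed m s d S F → s ≤ n → (S : ℝ) ≤ 2 ^ ((n : ℝ) ^ c) → (∀ y, F y ∈ A) →
        (n : ℝ) ^ (1 / 2 + ε) ≤ entropy F →
        ∃ x, (∀ N, (∀ y, F y < N) → x < h * N) ∧ (2 : ℝ) ^ ((n : ℝ) ^ ε) ≤ rep A h x) ∧
    -- 2. densities above the threshold force many representations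
    (∀ (d : ℕ) (ε γ : ℝ), 0 < ε → 0 < γ → ∃ c : ℝ, 0 < c ∧ ∀ᶠ n : ℕ in atTop,
      ∀ (A : Set ℕ) (m s S : ℕ) (F : (Fin m → Bool) → ℕ),
        (2 : ℝ) ^ ((n : ℝ) ^ (1 / 2 + ε)) ≤ (A ∩ Set.Iio (2 ^ n)).ncard →
        Computed m s d S F → s ≤ n → (S : ℝ) ≤ 2 ^ ((n : ℝ) ^ c) → (∀ y, F y ∈ A ∧ F y < 2 ^ n) →
        (∀ v, (({y | F y = v} : Set (Fin m → Bool)).ncard : ℝ) *
          ((A ∩ Set.Iio (2 ^ n)).ncard : ℝ) ^ γ ≤ 2 ^ m) →
        ∃ x < h * 2 ^ n, (2 : ℝ) ^ ((n : ℝ) ^ (ε / 2)) ≤ rep A h x) ∧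
    -- 3. circuits which are right on a small part of the inputs
    (∀ (d : ℕ) (ε : ℝ), 0 < ε → ∃ c : ℝ, 0 < c ∧ ∀ K : ℕ, ∀ᶠ n : ℕ in atTop,
      ∀ A : Set ℕ, (∀ x, rep A h x ≤ K) → ∀ (k s S : ℕ) (F : (Fin k → Bool) → ℕ),
        (n : ℝ) ^ (1 / 2 + ε) ≤ k → Function.Injective F → Computed k s d S F → s ≤ n →
        (S : ℝ) ≤ 2 ^ ((n : ℝ) ^ c) →
        (({y | F y ∈ A} : Set (Fin k → Bool)).ncard : ℝ) ≤ 2 ^ ((k : ℝ) - (n : ℝ) ^ c)) ∧
    -- 4. below the threshold
    (∃ (A : Set ℕ) (c : ℝ), 0 < c ∧ (∀ x, rep A h x ≤ 2 ^ (h * 2 ^ h)) ∧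
      (∀ᶠ N : ℕ in atTop, (2 : ℝ) ^ (c * √(Real.log N)) ≤ (A ∩ Set.Iio N).ncard) ∧
      ∀ᶠ n : ℕ in atTop, ∃ (k s : ℕ) (F : (Fin k → Bool) → ℕ), c * √(n : ℝ) ≤ k ∧ s ≤ n ∧
        Function.Injective F ∧ Computed k s 1 s F ∧ ∀ y, F y ∈ A ∧ F y < 2 ^ n) :=
  ⟨fun d ε hε => thr_entropy h d hh ε hε, fun d ε γ hε hγ => thr_sets h d hh ε γ hε hγ,
    fun d ε hε => thr_sparse h d hh ε hε, thr_sharp h⟩

end Pool.Agent.Results.MP_491344_nt.SampledThresholds
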